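import Pool.Agent.Run7.h58.AR.Iface

/-! # Piece LIM: the Hankel operator of rank one -/

set_option autoImplicit false

open MeasureTheory Filter Topology Set Complex
open scoped InnerProductSpace

namespace Pool.Agent.Run7.h114.AR

open Pool.Agent.Run7.h58.AR

/-- the operator `h ↦ (c * h 0) • e0` -/
noncomputable def R (c : ℂ) : L2 →L[ℂ] L2 := c • (innerSL ℂ e0).smulRight e0

lemma e0_inner (h : L2) : ⟪e0, h⟫_ℂ = (h : ℕ → ℂ) 0 := by
  unfold e0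
  rw [lp.inner_single_left]
  simp

lemma inner_e0 (h : L2) : ⟪h, e0⟫_ℂ = (starRingEnd ℂ) ((h : ℕ → ℂ) 0) := by
  unfold e0
  rw [lp.inner_single_right]
  simp

lemma e0_zero : (e0 : ℕ → ℂ) 0 = 1 := by
  unfold e0
  rw [lp.single_apply_self]

lemma e0_ne {j : ℕ} (hj : j ≠ 0) : (e0 : ℕ → ℂ) j = 0 := by
  unfold e0
  rw [lp.single_apply_ne]
  exact hj

lemma R_apply (c : ℂ) (h : L2) : R c h = (c * (h : ℕ → ℂ) 0) • e0 := by
  unfold R
  rw [_root_.smul_apply, ContinuousLinearMap.smulRight_apply, innerSL_apply_apply, e0_inner, smul_smul]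

lemma R_e0 (c : ℂ) : R c e0 = c • e0 := by
  rw [R_apply, e0_zero, mul_one]

lemma smul_zero' (c : ℂ) (h : L2) : ((c • h : L2) : ℕ → ℂ) 0 = c * (h : ℕ → ℂ) 0 := by
  rw [lp.coeFn_smul, Pi.smul_apply, smul_eq_mul]

lemma R_mul (a b : ℂ) : R a * R b = R (a * b) := by
  refine ContinuousLinearMap.ext fun h => ?_
  show R a (R b h) = _
  rw [R_apply b, map_smul, R_e0, R_apply, smul_smul]
  congr 1
  ring

lemma R_add (a b : ℂ) : R a + R b = R (a + b) := by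
  unfold R
  rw [add_smul]

lemma smul_R (a b : ℂ) : a • R b = R (a * b) := by
  unfold R
  rw [smul_smul]

lemma R_adj (c : ℂ) : ContinuousLinearMap.adjoint (R c) = R ((starRingEnd ℂ) c) := by
  symm
  rw [ContinuousLinearMap.eq_adjoint_iff]
  intro x y
  rw [R_apply, R_apply, inner_smul_left, inner_smul_right, e0_inner, inner_e0, map_mul, Complex.conj_conj]
  ring

lemma R_zero : R 0 = 0 := by
  unfold R
  rw [zero_smul]

lemma matrix (γ : ℂ) (j k : ℕ) :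
    (R γ (lp.single 2 k (1 : ℂ)) : ℕ → ℂ) j = if j = 0 ∧ k = 0 then γ else 0 := by
  rw [R_apply, lp.coeFn_smul, Pi.smul_apply, smul_eq_mul]
  by_cases hk : k = 0
  · subst hk
    rw [lp.single_apply_self, mul_one]
    by_cases hj : j = 0
    · subst hj
      rw [e0_zero, mul_one, if_pos ⟨rfl, rfl⟩]
    · rw [e0_ne hj, mul_zero, if_neg (fun h => hj h.1)]
  · rw [lp.single_apply_ne (hij := fun h => hk h.symm), mul_zero, zero_mul, if_neg (fun h => hk h.2)]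

lemma unique_of_matrix {A B : L2 →L[ℂ] L2}
    (h : ∀ j k : ℕ, (A (lp.single 2 k (1 : ℂ)) : ℕ → ℂ) j = (B (lp.single 2 k (1 : ℂ)) : ℕ → ℂ) j) : A = B := by
  refine lp.ext_continuousLinearMap (by simp) fun k => ?_
  refine ContinuousLinearMap.ext_ring ?_
  rw [ContinuousLinearMap.comp_apply, ContinuousLinearMap.comp_apply, lp.singleContinuousLinearMap_apply]
  exact lp.ext (funext fun j => h j k)

lemma inv_R {u : ℂ} (hu : u ≠ 1) : Ring.inverse (1 - R u) = 1 + R (u / (1 - u)) := by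
  have h1 : (1 : ℂ) - u ≠ 0 := sub_ne_zero.2 hu.symm
  have e1 : (1 - R u) * (1 + R (u / (1 - u))) = 1 := by
    have : (1 - R u) * (1 + R (u / (1 - u))) = 1 + (R (u / (1 - u)) + R (-u) + R (-(u * (u / (1 - u))))) := by
      have k1 : R (-u) = -R u := by unfold R; rw [neg_smul]
      have k2 : R (-(u * (u / (1 - u)))) = -(R u * R (u / (1 - u))) := by
        rw [R_mul]; unfold R; rw [neg_smul]
      rw [k1, k2]
      noncomm_ring
    rw [this, R_add, R_add]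
    have k3 : u / (1 - u) + -u + -(u * (u / (1 - u))) = 0 := by
      field_simp
      ring
    rw [k3, R_zero, add_zero]
  have e2 : (1 + R (u / (1 - u))) * (1 - R u) = 1 := by
    have : (1 + R (u / (1 - u))) * (1 - R u) = 1 + (R (u / (1 - u)) + R (-u) + R (-(u * (u / (1 - u))))) := by
      have k1 : R (-u) = -R u := by unfold R; rw [neg_smul]
      have k2 : R (-(u * (u / (1 - u)))) = -(R (u / (1 - u)) * R u) := by
        rw [R_mul, mul_comm u]; unfold R; rw [neg_smul]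
      rw [k1, k2]
      noncomm_ring
    rw [this, R_add, R_add]
    have k3 : u / (1 - u) + -u + -(u * (u / (1 - u))) = 0 := by
      field_simp
      ring
    rw [k3, R_zero, add_zero]
  exact Ring.inverse_unit (⟨1 - R u, 1 + R (u / (1 - u)), e1, e2⟩ : (L2 →L[ℂ] L2)ˣ)

lemma res_R {t : ℂ} {ρ : ℝ} (h : (ρ : ℂ) ^ 2 * t ≠ 1) (c : ℂ) :
    res (R t) ρ (c • e0) = (c * (1 / (1 - (ρ : ℂ) ^ 2 * t))) • e0 := by
  unfold res
  rw [smul_R, inv_R h, map_smul, _root_.add_apply, R_e0, one_apply_eq_self, smul_add, smul_smul,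
    ← add_smul]
  congr 1
  have h1 : (1 : ℂ) - (ρ : ℂ) ^ 2 * t ≠ 0 := sub_ne_zero.2 h.symm
  field_simp
  ring

lemma gen_e0 (c z : ℂ) : gen (c • e0) z = c := by
  unfold gen
  rw [tsum_eq_single 0]
  · rw [smul_zero', e0_zero]
    simp
  · intro j hj
    rw [lp.coeFn_smul, Pi.smul_apply, smul_eq_mul, e0_ne hj]
    simp

theorem t_LIM : S_LIM := by
  intro γ hγ
  refine ⟨⟨R γ, matrix γ⟩, fun Γ hΓ z hz ρ h0 h1 => ?_⟩
  have hG : Γ = R γ := unique_of_matrix fun j k => by rw [hΓ, matrix]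
  have e1 : ContinuousLinearMap.adjoint Γ * Γ = R ((starRingEnd ℂ) γ * γ) := by rw [hG, R_adj, R_mul]
  have e2 : Γ * ContinuousLinearMap.adjoint Γ = R ((starRingEnd ℂ) γ * γ) := by rw [hG, R_adj, R_mul, mul_comm]
  have e3 : (starRingEnd ℂ) γ * γ = ((‖γ‖ ^ 2 : ℝ) : ℂ) := by
    rw [mul_comm, Complex.mul_conj, Complex.normSq_eq_norm_sq]
  have hu : ρ ^ 2 * ‖γ‖ ^ 2 < 1 := by
    have k1 : ρ ^ 2 < 1 := by nlinarith
    have k2 : ‖γ‖ ^ 2 ≤ 1 := by nlinarith [norm_nonneg γ]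
    nlinarith [sq_nonneg ρ, sq_nonneg ‖γ‖]
  have hne : (ρ : ℂ) ^ 2 * ((‖γ‖ ^ 2 : ℝ) : ℂ) ≠ 1 := by
    have : ρ ^ 2 * ‖γ‖ ^ 2 ≠ 1 := hu.ne
    exact_mod_cast this
  have hroot : root (R (((‖γ‖ ^ 2 : ℝ) : ℂ))) ρ ≠ 0 := by
    unfold root
    have e4 := res_R hne 1
    rw [one_smul, one_mul] at e4
    rw [e4, smul_zero', e0_zero, mul_one]
    have e5 : (1 : ℂ) / (1 - (ρ : ℂ) ^ 2 * ((‖γ‖ ^ 2 : ℝ) : ℂ)) = ((1 / (1 - ρ ^ 2 * ‖γ‖ ^ 2) : ℝ) : ℂ) := by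
      push_cast
      rfl
    rw [e5, Complex.ofReal_re]
    have : 0 < 1 / (1 - ρ ^ 2 * ‖γ‖ ^ 2) := by
      apply one_div_pos.2
      linarith
    exact inv_ne_zero (Real.sqrt_pos.2 this).ne'
  unfold Pp qp
  rw [e1, e2, e3, res_R hne, gen_e0, hG, R_adj, R_apply, smul_zero', e0_zero, gen_e0]
  have hr : ((root (R (((‖γ‖ ^ 2 : ℝ) : ℂ))) ρ : ℝ) : ℂ) ≠ 0 := by exact_mod_cast hroot
  have hk : (1 : ℂ) - (ρ : ℂ) ^ 2 * ((‖γ‖ ^ 2 : ℝ) : ℂ) ≠ 0 := sub_ne_zero.2 hne.symm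
  generalize ((root (R (((‖γ‖ ^ 2 : ℝ) : ℂ))) ρ : ℝ) : ℂ) = r at hr ⊢
  generalize (1 : ℂ) - (ρ : ℂ) ^ 2 * ((‖γ‖ ^ 2 : ℝ) : ℂ) = k at hk ⊢
  field_simp

end Pool.Agent.Run7.h114.AR
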