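import Pool.Agent.Run7.h58.AR.Iface

/-! # Piece MAP: the square root map of the disc to the quadrant -/

set_option autoImplicit false

open MeasureTheory Filter Topology Set Complex

namespace Pool.Agent.Run7.h114.AR

open Pool.Agent.Run7.h58.AR

lemma mem_D1 {z : ℂ} (hz : z ∈ D1) : ‖z‖ ≤ 1 ∧ 1 - z ≠ 0 := by
  refine ⟨by simpa using hz.1, fun h => hz.2 ?_⟩
  rw [Set.mem_singleton_iff]
  exact (sub_eq_zero.1 h).symm

lemma D_sub {z : ℂ} (hz : z ∈ D) : z ∈ D1 := by
  have h : ‖z‖ < 1 := by simpa [D] using hz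
  refine ⟨by simpa using h.le, fun h1 => ?_⟩
  rw [Set.mem_singleton_iff] at h1
  rw [h1, norm_one] at h
  exact lt_irrefl _ h

/-- `Re ((1 + z)/(1 - z)) = (1 - |z|²)/|1 - z|²` -/
lemma w_re (z : ℂ) : ((1 + z) / (1 - z)).re = (1 - ‖z‖ ^ 2) / normSq (1 - z) := by
  rw [Complex.div_re, ← add_div]
  congr 1
  rw [← Complex.normSq_eq_norm_sq, Complex.normSq_apply]
  simp
  ring

lemma w_re_nonneg {z : ℂ} (hz : z ∈ D1) : 0 ≤ ((1 + z) / (1 - z)).re := by
  rw [w_re]
  have h := (mem_D1 hz).1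
  exact div_nonneg (by nlinarith [norm_nonneg z]) (normSq_nonneg _)

lemma w_re_pos {z : ℂ} (hz : z ∈ D) : 0 < ((1 + z) / (1 - z)).re := by
  rw [w_re]
  have h : ‖z‖ < 1 := by simpa [D] using hz
  exact div_pos (by nlinarith [norm_nonneg z]) (normSq_pos.2 (mem_D1 (D_sub hz)).2)

lemma half_inv : (1 / 2 : ℂ) = (((2 : ℕ) : ℂ))⁻¹ := by norm_num

lemma sq_half (w : ℂ) : (w ^ (1 / 2 : ℂ)) ^ 2 = w := by
  rw [half_inv]
  exact Complex.cpow_nat_inv_pow w two_ne_zero

lemma e_sq : (exp (Real.pi / 4 * I)) ^ 2 = I := by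
  rw [← Complex.exp_nat_mul]
  have : ((2 : ℕ) : ℂ) * (Real.pi / 4 * I) = ((Real.pi / 2 : ℝ) : ℂ) * I := by
    push_cast
    ring
  rw [this, Complex.exp_mul_I, ← Complex.ofReal_cos, ← Complex.ofReal_sin, Real.cos_pi_div_two, Real.sin_pi_div_two]
  simp

lemma vv_sq (z : ℂ) : (vv z) ^ 2 = I * ((1 + z) / (1 - z)) := by
  unfold vv
  rw [mul_pow, e_sq, sq_half]

lemma vv_quad {z : ℂ} (hz : z ∈ D1) : 0 ≤ (vv z).re ∧ 0 ≤ (vv z).im := by
  unfold vv
  have h0 := w_re_nonneg hz
  generalize (1 + z) / (1 - z) = w at h0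
  by_cases hw : w = 0
  · rw [hw, Complex.zero_cpow (by norm_num), mul_zero]
    simp
  · rw [Complex.cpow_def_of_ne_zero hw, ← Complex.exp_add]
    have ha := Complex.abs_arg_le_pi_div_two_iff.2 h0
    have ha' := abs_le.1 ha
    have him : ((Real.pi : ℂ) / 4 * I + Complex.log w * (1 / 2)).im = Real.pi / 4 + w.arg / 2 := by
      have e1 : (Real.pi : ℂ) / 4 * I + Complex.log w * (1 / 2) =
          ((Real.pi / 4 : ℝ) : ℂ) * I + Complex.log w * ((1 / 2 : ℝ) : ℂ) := by
        push_cast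
        ring
      rw [e1, Complex.add_im, show ((((Real.pi / 4 : ℝ) : ℂ) * I).im = Real.pi / 4) by simp, Complex.im_mul_ofReal, Complex.log_im]
      ring
    rw [Complex.exp_re, Complex.exp_im, him]
    refine ⟨mul_nonneg (Real.exp_pos _).le (Real.cos_nonneg_of_neg_pi_div_two_le_of_le ?_ ?_),
      mul_nonneg (Real.exp_pos _).le (Real.sin_nonneg_of_nonneg_of_le_pi ?_ ?_)⟩ <;> linarith [Real.pi_pos]

theorem t_MAP : S_MAP := by
  refine ⟨fun z hz => ?_, fun z hz => ?_, fun z hz => ⟨(vv_quad hz).1, (vv_quad hz).2, vv_sq z, ?_, fun h1 => ?_⟩,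
    fun r h0 h1 => ?_⟩
  · have hne := (mem_D1 (D_sub hz)).2
    refine DifferentiableAt.differentiableWithinAt ?_
    unfold vv
    refine (DifferentiableAt.cpow ?_ (differentiableAt_const _) ?_).const_mul _
    · exact ((differentiableAt_const _).add differentiableAt_id).div ((differentiableAt_const _).sub differentiableAt_id) hne
    · exact Or.inl (w_re_pos hz)
  · have hne := (mem_D1 hz).2
    refine ContinuousAt.continuousWithinAt ?_
    unfold vv
    refine continuousAt_const.mul ?_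
    have h1 : ContinuousAt (fun z : ℂ => (1 + z) / (1 - z)) z :=
      (continuousAt_const.add continuousAt_id).div (continuousAt_const.sub continuousAt_id) hne
    exact ContinuousAt.comp (f := fun z : ℂ => (1 + z) / (1 - z)) (g := fun w : ℂ => w ^ (1 / 2 : ℂ))
      (Complex.continuousAt_cpow_const_of_re_pos (Or.inl (w_re_nonneg hz)) (by norm_num)) h1
  · have hne := (mem_D1 hz).2
    have hp : 0 < ‖1 - z‖ := norm_pos_iff.2 hne
    have h1 : ‖vv z‖ ^ 2 ≤ (2 / Real.sqrt ‖1 - z‖) ^ 2 := by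
      rw [← norm_pow, vv_sq, norm_mul, norm_I, one_mul, norm_div, div_pow, Real.sq_sqrt hp.le]
      refine div_le_div_of_nonneg_right ?_ hp.le
      have := norm_add_le (1 : ℂ) z
      rw [norm_one] at this
      linarith [(mem_D1 hz).1]
    exact (pow_le_pow_iff_left₀ (norm_nonneg _) (by positivity) two_ne_zero).1 h1
  · have h2 : ((vv z) ^ 2).im = 0 := by
      rw [vv_sq, Complex.I_mul_im, w_re, h1]
      simp
    rw [pow_two, Complex.mul_im] at h2
    have h3 : (vv z).re * (vv z).im = 0 := by linarith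
    exact mul_eq_zero.1 h3
  · unfold vv
    congr 1
    have h2 : 0 ≤ (1 + r) / (1 - r) := div_nonneg (by linarith) (by linarith)
    rw [Real.sqrt_eq_rpow, Complex.ofReal_cpow h2]
    push_cast
    rfl

end Pool.Agent.Run7.h114.AR
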